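import Pool.Agent.H.MP_34deb4_co.D

set_option autoImplicit false

namespace Pool.Agent.Results.MP_34deb4_co.Tadpole

open Matrix SimpleGraph

/-- A lies in S(G). -/
def InS {n : ℕ} (G : SimpleGraph (Fin n)) (A : Matrix (Fin n) (Fin n) ℝ) : Prop :=
  A.IsSymm ∧ ∀ i j, i ≠ j → (A i j ≠ 0 ↔ G.Adj i j)

/-- The strong spectral property. -/
def SSP {n : ℕ} (A : Matrix (Fin n) (Fin n) ℝ) : Prop :=
  ∀ X : Matrix (Fin n) (Fin n) ℝ, X.IsSymm → A ⊙ X = 0 → (1 : Matrix (Fin n) (Fin n) ℝ) ⊙ X = 0 →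
    A * X - X * A = 0 → X = 0

def IsSSP {n : ℕ} (G : SimpleGraph (Fin n)) : Prop := ∀ A, InS G A → SSP A

/-- The tadpole: cycle 0, ..., m-1, path m, ..., m+n-1, bridge from 0 to m. -/
def tad (m n : ℕ) : SimpleGraph (Fin (m + n)) := fromRel fun i j =>
  (i.val + 1 = j.val ∧ j.val ≠ m) ∨ (i.val = 0 ∧ (j.val + 1 = m ∨ j.val = m))

open Pool.Agent.H.MP_34deb4_co Finset

theorem tad_adj {m n : ℕ} (i j : Fin (m + n)) : (tad m n).Adj i j ↔ adj m i j := by
  simp only [tad, fromRel_adj, adj, rel, ne_eq, Fin.ext_iff]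

noncomputable def ex {N : ℕ} (A : Matrix (Fin N) (Fin N) ℝ) (i j : ℕ) : ℝ :=
  if h : i < N ∧ j < N then A ⟨i, h.1⟩ ⟨j, h.2⟩ else 0

theorem ex_fin {N : ℕ} (A : Matrix (Fin N) (Fin N) ℝ) (i j : Fin N) : ex A i j = A i j :=
  dif_pos ⟨i.2, j.2⟩

theorem ex_symm {N : ℕ} {A : Matrix (Fin N) (Fin N) ℝ} (h : A.IsSymm) (i j : ℕ) :
    ex A i j = ex A j i := by
  unfold ex
  by_cases h1 : i < N ∧ j < N
  · rw [dif_pos h1, dif_pos h1.symm, h.apply]
  · rw [dif_neg h1, dif_neg fun h2 => h1 h2.symm]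

theorem ex_zero {N : ℕ} {A : Matrix (Fin N) (Fin N) ℝ} {i j : ℕ}
    (h : ∀ a b : Fin N, a.val = i → b.val = j → A a b = 0) : ex A i j = 0 := by
  unfold ex
  split_ifs with h1
  · exact h _ _ rfl rfl
  · rfl

theorem result (m n : ℕ) (hm : 3 ≤ m) (hn : 1 ≤ n) : IsSSP (tad m n) ↔ m ≤ 2 * n + 3 := by
  constructor
  · intro H
    by_contra hc
    obtain ⟨a, x, sa, ha, sx, xd, xe, cm, i, hi, hx⟩ := exists_bad (m := m) hn (by omega)
    have := H (mx _ a) ⟨by ext i j; exact sa _ _, fun i j hij => by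
      rw [tad_adj]; exact ha i i.2 j j.2 fun h => hij (Fin.ext h)⟩ (mx _ x)
      (by ext i j; exact sx _ _) ?_ ?_ ?_
    · exact hx (congrFun (congrFun this ⟨i, by omega⟩) ⟨0, by omega⟩)
    · ext i j
      by_cases hij : (i : ℕ) = j
      · simp [mx, hij, xd]
      · by_cases h1 : adj m i j
        · simp [mx, xe _ _ h1]
        · have : a i j = 0 := by_contra fun h => h1 ((ha i i.2 j j.2 hij).1 h)
          simp [mx, this]
    · ext i j
      by_cases hij : i = j
      · simp [mx, hij, xd]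
      · simp [hij]
    · ext i j
      have := cm i i.2 j j.2
      rw [← Fin.sum_univ_eq_sum_range (fun k => a i k * x k j),
        ← Fin.sum_univ_eq_sum_range (fun k => a j k * x k i)] at this
      simp only [Matrix.sub_apply, Matrix.mul_apply, mx, of_apply, this, Matrix.zero_apply,
        sub_eq_zero]
      exact sum_congr rfl fun k _ => by rw [sa, sx, mul_comm]
  · rintro hmn A ⟨hs, hA⟩ X hX h1 h2 h3
    have xd : ∀ i, X i i = 0 := fun i => by simpa using congrFun (congrFun h2 i) i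
    have nz : ∀ i j : Fin (m + n), adj m i j → A i j ≠ 0 := fun i j h =>
      (hA i j fun e => h.1 (congrArg _ e)).2 ((tad_adj i j).2 h)
    have H : Hyp m n (ex A) (ex X) := by
      refine ⟨⟨fun i j h h' => ex_zero ?_, fun i j h => dif_neg (by omega)⟩, ex_symm hs,
        fun i j hi hj h => ?_, ex_symm hX, fun i => ex_zero ?_, fun i j h => ex_zero ?_,
        fun i j h => dif_neg (by omega), fun i j => ?_⟩
      · rintro a b rfl rfl
        by_contra hc
        exact h' ((tad_adj a b).1 ((hA a b fun e => h (congrArg _ e)).1 hc))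
      · exact (ex_fin A ⟨i, hi⟩ ⟨j, hj⟩).symm ▸ nz ⟨i, hi⟩ ⟨j, hj⟩ h
      · intro a b h h'
        rw [show a = b from Fin.ext (h.trans h'.symm), xd]
      · rintro a b rfl rfl
        simpa [nz a b h] using congrFun (congrFun h1 a) b
      · by_cases hi : i < m + n
        · by_cases hj : j < m + n
          · have := congrFun (congrFun (sub_eq_zero.1 h3) ⟨i, hi⟩) ⟨j, hj⟩
            rw [← Fin.sum_univ_eq_sum_range (fun k => ex A i k * ex X k j),
              ← Fin.sum_univ_eq_sum_range (fun k => ex A j k * ex X k i)]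
            simp only [Matrix.mul_apply] at this
            refine (sum_congr rfl fun k _ => ?_).trans (this.trans (sum_congr rfl fun k _ => ?_))
            · rw [← ex_fin A, ← ex_fin X]
            · rw [← ex_fin A, ← ex_fin X, ex_symm hs, ex_symm hX, mul_comm]
          · rw [sum_eq_zero, sum_eq_zero] <;> intro k _
            · rw [show ex A j k = 0 from dif_neg (by omega), zero_mul]
            · rw [show ex X k j = 0 from dif_neg (by omega), mul_zero]
        · rw [sum_eq_zero, sum_eq_zero] <;> intro k _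
          · rw [show ex X k i = 0 from dif_neg (by omega), mul_zero]
          · rw [show ex A i k = 0 from dif_neg (by omega), zero_mul]
    ext i j
    rw [← ex_fin X, H.zero hm hn hmn, Matrix.zero_apply]

end Pool.Agent.Results.MP_34deb4_co.Tadpole
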